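import Pool.Agent.X14.QLiu

/-!
# Truncated q-sums with cubed `(q^2;q^4)_k` modulo `Φ_n(q)^2`, `n ≡ 3 (mod 4)`
-/

set_option autoImplicit false

namespace Pool.Agent.Results.MP_846daf_nt.BothSums

open Finset Polynomial

noncomputable section

/-- The indeterminate `q`, as an element of `ℚ(q)`. -/
def q : RatFunc ℚ := RatFunc.X

/-- The q-shifted factorial `(a; x)_k = (1 - a)(1 - a x) ⋯ (1 - a x^{k-1})`. -/
def qp (a x : RatFunc ℚ) (k : ℕ) : RatFunc ℚ := ∏ j ∈ range k, (1 - a * x ^ j)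

/-- The terms `t_k(q)`. -/
def t (k : ℕ) : RatFunc ℚ :=
  q ^ k * (((1 + q ^ (4 * k + 1)) * qp (q ^ 2) (q ^ 4) k ^ 3) / ((1 + q) * qp (q ^ 4) (q ^ 4) k ^ 3))

/-- The sum `S_N(q)` over `0 ≤ k ≤ N`. -/
def S (N : ℕ) : RatFunc ℚ := ∑ k ∈ range (N + 1), t k

/-- `f ≡ 0 (mod Φ^2)`: the reduced denominator of `f` is coprime to `Φ`, and `Φ^2` divides the
reduced numerator. -/
def ZeroSq (Φ : ℚ[X]) (f : RatFunc ℚ) : Prop := IsCoprime f.denom Φ ∧ Φ ^ 2 ∣ f.num

open Pool.Agent.X14 QL QBlock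

lemma q_def : q = QL.q := rfl

lemma t_eq (k : ℕ) : t k = QLiu.term k := by
  have h1 : qp (q ^ 2) (q ^ 4) k = ∏ j ∈ range k, e (((2 : ℕ) : ℤ) * (2 * (j : ℤ) + 1)) := by
    unfold qp
    apply prod_congr rfl
    intro j _
    rw [show (((2 : ℕ) : ℤ) * (2 * (j : ℤ) + 1)) = ((4 * j + 2 : ℕ) : ℤ) by push_cast; ring, e_nat,
      q_def, ← pow_mul, pow_add]
    ring
  have h2 : qp (q ^ 4) (q ^ 4) k = ∏ j ∈ range k, e (((2 : ℕ) : ℤ) * (2 * (j : ℤ) + 2)) := by
    unfold qp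
    apply prod_congr rfl
    intro j _
    rw [show (((2 : ℕ) : ℤ) * (2 * (j : ℤ) + 2)) = ((4 * j + 4 : ℕ) : ℤ) by push_cast; ring, e_nat,
      q_def, ← pow_mul, pow_add]
    ring
  unfold t QLiu.term rr
  rw [prod_div_distrib, h1, h2, q_def, mul_div_mul_comm, div_pow]
  ring

lemma zeroSq_of_QO {Φ : ℚ[X]} {f : RatFunc ℚ} (h : QO Φ 2 f) : ZeroSq Φ f := by
  obtain ⟨h1, h2⟩ := h.num_denom
  exact ⟨(IsCoprime.pow_right_iff (by norm_num : 0 < 2)).1 h2, h1⟩

/-- **Full positive answer to Q1**: both (a) and (b). -/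
theorem result (n r : ℕ) (hn : n % 4 = 3) (hr : 0 < r) :
    ZeroSq (cyclotomic n ℚ) (S (r * n - 1)) ∧ ZeroSq (cyclotomic n ℚ) (S (r * n + (n - 1) / 2)) := by
  obtain ⟨h, hh⟩ : ∃ h, n = 2 * h + 1 := ⟨n / 2, by omega⟩
  have hA : ∀ m : ℕ, QO (cyclotomic n ℚ) 2 (∑ k ∈ range (m * n), QLiu.term k) := by
    intro m
    rw [mul_comm m n, sum_range_blocks]
    exact QO.sum (fun J _ => QLiu.blocks_zero hh (by omega) J)
  constructor
  · apply zeroSq_of_QO
    unfold S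
    rw [Nat.sub_add_cancel (Nat.mul_pos hr (by omega))]
    simp only [t_eq]
    exact hA r
  · apply zeroSq_of_QO
    unfold S
    simp only [t_eq]
    have e1 : (n - 1) / 2 = h := by omega
    rw [e1]
    have h1 := hA (r + 1)
    have e2 : (r + 1) * n = r * n + h + 1 + h := by rw [hh]; ring
    rw [e2, sum_range_add] at h1
    have h2 : QO (cyclotomic n ℚ) 2 (∑ x ∈ range h, QLiu.term (r * n + h + 1 + x)) := by
      apply QO.sum
      intro x hx
      rw [mem_range] at hx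
      have := (QLiu.term_mem hh r (l := h + 1 + x) (by omega)).2 (by omega)
      rwa [mul_comm n r, ← add_assoc, ← add_assoc] at this
    have h3 := h1.sub h2
    rwa [add_sub_cancel_right] at h3

end

end Pool.Agent.Results.MP_846daf_nt.BothSums
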